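import Pool.Agent.Helper21.MT9.Stmts

/-!
# T9, module OI1
A normal space of infinitesimal similitudes is irreducible if the group is, when the middle
eigenvalue is simple.
-/

set_option autoImplicit false

open NumberField MU

namespace MT

namespace O1

variable {K₀ K : Type} [Field K₀] [Field K] [Algebra K₀ K] {n : ℕ}

/-- `φ` applied to the coordinates -/
def fv (φ : K →ₗ[K₀] K₀) (v : Fin n → K) : Fin n → K₀ := fun j => φ (v j)

/-- base change of a subspace -/
def bc (K : Type) [Field K] [Algebra K₀ K] (W : Submodule K₀ (Fin n → K₀)) :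
    Submodule K (Fin n → K) where
  carrier := {v | ∀ φ : K →ₗ[K₀] K₀, fv φ v ∈ W}
  add_mem' := by
    intro v w hv hw φ
    have : fv φ (v + w) = fv φ v + fv φ w := by
      funext j
      simp [fv]
    rw [this]
    exact W.add_mem (hv φ) (hw φ)
  zero_mem' := by
    intro φ
    have : fv φ (0 : Fin n → K) = 0 := by
      funext j
      simp [fv]
    rw [this]
    exact W.zero_mem
  smul_mem' := by
    intro c v hv φ
    have : fv φ (c • v) = fv (φ.comp (LinearMap.mulLeft K₀ c)) v := by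
      funext j
      simp [fv]
    rw [this]
    exact hv _

theorem mem_bc {W : Submodule K₀ (Fin n → K₀)} {v : Fin n → K} :
    v ∈ bc K W ↔ ∀ φ : K →ₗ[K₀] K₀, fv φ v ∈ W := Iff.rfl

theorem fv_mulVec {m : ℕ} (φ : K →ₗ[K₀] K₀) (A : Matrix (Fin m) (Fin n) K₀) (v : Fin n → K) :
    fv φ ((A.map (algebraMap K₀ K)).mulVec v) = A.mulVec (fv φ v) := by
  funext j
  simp only [fv, Matrix.mulVec, dotProduct, Matrix.map_apply, map_sum]
  refine Finset.sum_congr rfl fun i _ => ?_
  rw [← Algebra.smul_def, map_smul, smul_eq_mul]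

theorem bc_mulVec {W : Submodule K₀ (Fin n → K₀)} {A : Matrix (Fin n) (Fin n) K₀}
    (hA : ∀ v ∈ W, A.mulVec v ∈ W) {v : Fin n → K} (hv : v ∈ bc K W) :
    (A.map (algebraMap K₀ K)).mulVec v ∈ bc K W := by
  intro φ
  rw [fv_mulVec]
  exact hA _ (hv φ)

/-- stable subspaces -/
def St (a : Submodule K₀ (Matrix (Fin n) (Fin n) K₀)) (W : Submodule K₀ (Fin n → K₀)) : Prop :=
  ∀ A ∈ a, ∀ v ∈ W, A.mulVec v ∈ W

theorem bc_span {a : Submodule K₀ (Matrix (Fin n) (Fin n) K₀)} {W : Submodule K₀ (Fin n → K₀)}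
    (hW : St a W) {Θ : Matrix (Fin n) (Fin n) K}
    (hΘ : Θ ∈ Submodule.span K {B | ∃ A ∈ a, B = A.map (algebraMap K₀ K)}) {v : Fin n → K}
    (hv : v ∈ bc K W) : Θ.mulVec v ∈ bc K W := by
  induction hΘ using Submodule.span_induction with
  | mem B hB =>
    obtain ⟨A, hA, rfl⟩ := hB
    exact bc_mulVec (hW A hA) hv
  | zero =>
    rw [Matrix.zero_mulVec]
    exact Submodule.zero_mem _
  | add X Y _ _ hX hY =>
    rw [Matrix.add_mulVec]
    exact Submodule.add_mem _ hX hY
  | smul c X _ hX =>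
    rw [Matrix.smul_mulVec]
    exact Submodule.smul_mem _ c hX

theorem bc_inf {U W : Submodule K₀ (Fin n → K₀)} {v : Fin n → K} (h1 : v ∈ bc K U)
    (h2 : v ∈ bc K W) : v ∈ bc K (U ⊓ W) := fun φ => ⟨h1 φ, h2 φ⟩

theorem eq_zero_of_fv {x : K} (h : ∀ φ : K →ₗ[K₀] K₀, φ x = 0) : x = 0 := by
  exact (Module.forall_dual_apply_eq_zero_iff K₀ x).mp h

theorem bc_bot {v : Fin n → K} (h : v ∈ bc K (⊥ : Submodule K₀ (Fin n → K₀))) : v = 0 := by
  funext j
  refine eq_zero_of_fv (K₀ := K₀) fun φ => ?_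
  have := h φ
  rw [Submodule.mem_bot] at this
  exact congrFun this j

theorem mem_bc_map {W : Submodule K₀ (Fin n → K₀)} {v : Fin n → K₀} (hv : v ∈ W) :
    (fun j => algebraMap K₀ K (v j)) ∈ bc K W := by
  intro φ
  have : fv φ (fun j => algebraMap K₀ K (v j)) = φ 1 • v := by
    funext j
    simp only [fv, Pi.smul_apply, smul_eq_mul]
    rw [Algebra.algebraMap_eq_smul_one, map_smul, smul_eq_mul, mul_comm]
  rw [this]
  exact W.smul_mem _ hv

/-! ## Bases -/

/-- the range of a matrix is a subspace -/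
def Rg {m : ℕ} (B : Matrix (Fin n) (Fin m) K₀) (W : Submodule K₀ (Fin n → K₀)) : Prop :=
  ∀ v, v ∈ W ↔ ∃ x, B.mulVec x = v

theorem exists_basis (W : Submodule K₀ (Fin n → K₀)) :
    ∃ (m : ℕ) (B : Matrix (Fin n) (Fin m) K₀) (C : Matrix (Fin m) (Fin n) K₀),
      C * B = 1 ∧ Rg B W := by
  classical
  let b := Module.finBasis K₀ W
  let f : (Fin (Module.finrank K₀ W) → K₀) →ₗ[K₀] (Fin n → K₀) :=
    W.subtype.comp (b.equivFun.symm : (Fin (Module.finrank K₀ W) → K₀) →ₗ[K₀] W)
  have hf : LinearMap.ker f = ⊥ := by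
    rw [LinearMap.ker_eq_bot]
    exact W.subtype_injective.comp b.equivFun.symm.injective
  obtain ⟨g, hg⟩ := f.exists_leftInverse_of_injective hf
  refine ⟨_, LinearMap.toMatrix' f, LinearMap.toMatrix' g, ?_, fun v => ⟨fun hv => ?_, ?_⟩⟩
  · rw [← LinearMap.toMatrix'_comp, hg, LinearMap.toMatrix'_id]
  · refine ⟨b.equivFun ⟨v, hv⟩, ?_⟩
    rw [LinearMap.toMatrix'_mulVec]
    simp [f]
  · rintro ⟨x, rfl⟩
    rw [LinearMap.toMatrix'_mulVec]
    exact (b.equivFun.symm x).2

theorem rg_proj {m : ℕ} {B : Matrix (Fin n) (Fin m) K₀} {C : Matrix (Fin m) (Fin n) K₀}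
    {W : Submodule K₀ (Fin n → K₀)} (hCB : C * B = 1) (hB : Rg B W) {v : Fin n → K₀}
    (hv : v ∈ W) : (B * C).mulVec v = v := by
  obtain ⟨x, rfl⟩ := (hB v).1 hv
  rw [Matrix.mulVec_mulVec, Matrix.mul_assoc, hCB, Matrix.mul_one]

theorem mem_bc_iff {m : ℕ} {B : Matrix (Fin n) (Fin m) K₀} {C : Matrix (Fin m) (Fin n) K₀}
    {W : Submodule K₀ (Fin n → K₀)} (hCB : C * B = 1) (hB : Rg B W) {v : Fin n → K} :
    v ∈ bc K W ↔ ∃ x, (B.map (algebraMap K₀ K)).mulVec x = v := by
  constructor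
  · intro hv
    refine ⟨(C.map (algebraMap K₀ K)).mulVec v, ?_⟩
    rw [Matrix.mulVec_mulVec, ← Matrix.map_mul]
    have h : ∀ φ : K →ₗ[K₀] K₀, fv φ (((B * C).map (algebraMap K₀ K)).mulVec v - v) = 0 := by
      intro φ
      have h1 : fv φ (((B * C).map (algebraMap K₀ K)).mulVec v - v) =
          fv φ (((B * C).map (algebraMap K₀ K)).mulVec v) - fv φ v := by
        funext j
        simp [fv]
      rw [h1, fv_mulVec, rg_proj hCB hB (hv φ), sub_self]
    have h2 : ((B * C).map (algebraMap K₀ K)).mulVec v - v = 0 := by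
      funext j
      exact eq_zero_of_fv (K₀ := K₀) fun φ => congrFun (h φ) j
    exact sub_eq_zero.1 h2
  · rintro ⟨x, rfl⟩ φ
    rw [fv_mulVec]
    exact (hB _).2 ⟨_, rfl⟩

theorem map_CB {m : ℕ} {B : Matrix (Fin n) (Fin m) K₀} {C : Matrix (Fin m) (Fin n) K₀}
    (hCB : C * B = 1) : C.map (algebraMap K₀ K) * B.map (algebraMap K₀ K) = 1 := by
  rw [← Matrix.map_mul, hCB]
  exact Matrix.map_one _ (map_zero _) (map_one _)

theorem inj_of_CB {m : ℕ} {B : Matrix (Fin n) (Fin m) K} {C : Matrix (Fin m) (Fin n) K}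
    (hCB : C * B = 1) {x : Fin m → K} (h : B.mulVec x = 0) : x = 0 := by
  have := congrArg C.mulVec h
  rwa [Matrix.mulVec_mulVec, hCB, Matrix.one_mulVec, Matrix.mulVec_zero] at this

theorem stab_B {m : ℕ} {B : Matrix (Fin n) (Fin m) K₀} {C : Matrix (Fin m) (Fin n) K₀}
    {W : Submodule K₀ (Fin n → K₀)} (hCB : C * B = 1) (hB : Rg B W)
    {a : Submodule K₀ (Matrix (Fin n) (Fin n) K₀)} (hW : St a W) {Θ : Matrix (Fin n) (Fin n) K}
    (hΘ : Θ ∈ Submodule.span K {B | ∃ A ∈ a, B = A.map (algebraMap K₀ K)}) :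
    B.map (algebraMap K₀ K) * (C.map (algebraMap K₀ K) * (Θ * B.map (algebraMap K₀ K))) =
      Θ * B.map (algebraMap K₀ K) := by
  induction hΘ using Submodule.span_induction with
  | mem X hX =>
    obtain ⟨A, hA, rfl⟩ := hX
    rw [← Matrix.map_mul, ← Matrix.map_mul, ← Matrix.map_mul, ← Matrix.mul_assoc]
    refine congrArg (fun X : Matrix (Fin n) (Fin m) K₀ => X.map (algebraMap K₀ K)) ?_
    refine Matrix.toLin'.injective (LinearMap.ext fun x => ?_)
    have h1 := rg_proj hCB hB (hW A hA _ ((hB _).2 ⟨x, rfl⟩))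
    simpa only [Matrix.toLin'_apply, Matrix.mulVec_mulVec] using h1
  | zero => simp
  | add X Y _ _ hX hY => rw [Matrix.add_mul, Matrix.mul_add, Matrix.mul_add, hX, hY]
  | smul c X _ hX => rw [Matrix.smul_mul, Matrix.mul_smul, Matrix.mul_smul, hX]

/-! ## Parity -/

theorem det_skew {ι : Type} [Fintype ι] [DecidableEq ι] [CharZero K] {N : Matrix ι ι K}
    (hN : N.transpose = -N) (h : Odd (Fintype.card ι)) : N.det = 0 := by
  have h1 := congrArg Matrix.det hN
  rw [Matrix.det_transpose, Matrix.det_neg, h.neg_one_pow] at h1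
  have h2 : (2 : K) * N.det = 0 := by linear_combination h1
  rcases mul_eq_zero.1 h2 with h3 | h3
  · exact absurd h3 two_ne_zero
  · exact h3

/-- a skew matrix with a one-dimensional kernel has odd size -/
theorem odd_of_ker [CharZero K] {m : ℕ} {N S : Matrix (Fin m) (Fin m) K} (hN : N.transpose = -N)
    {x₀ : Fin m → K} (h0 : N.mulVec x₀ = 0)
    (h1 : x₀ ⬝ᵥ S.mulVec x₀ ≠ 0) (h2 : ∀ x, N.mulVec x = 0 → ∃ c : K, x = c • x₀) : Odd m := by
  classical
  by_contra hm
  rw [Nat.not_odd_iff_even] at hm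
  let s : Fin m → K := S.mulVec x₀
  let T : Matrix (Fin m ⊕ Unit) (Fin m ⊕ Unit) K :=
    Matrix.fromBlocks N (Matrix.of fun i _ => s i) (Matrix.of fun _ j => -s j) 0
  have hT : T.transpose = -T := by
    simp only [T, Matrix.fromBlocks_transpose, Matrix.fromBlocks_neg, hN]
    congr 1
    · ext i j
      simp
    · simp
  have hodd : Odd (Fintype.card (Fin m ⊕ Unit)) := by
    rw [Fintype.card_sum, Fintype.card_fin, Fintype.card_unit]
    exact hm.add_one
  obtain ⟨y, hy0, hy⟩ := Matrix.exists_mulVec_eq_zero_iff.2 (det_skew hT hodd)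
  have hl : ∀ i, N.mulVec (fun j => y (Sum.inl j)) i + s i * y (Sum.inr ()) = 0 := by
    intro i
    have := congrFun hy (Sum.inl i)
    simpa [T, Matrix.mulVec, dotProduct, Fintype.sum_sum_type] using this
  have hr : s ⬝ᵥ (fun j => y (Sum.inl j)) = 0 := by
    have := congrFun hy (Sum.inr ())
    simpa [T, Matrix.mulVec, dotProduct, Fintype.sum_sum_type] using this
  have ht : y (Sum.inr ()) = 0 := by
    have h3 : x₀ ⬝ᵥ N.mulVec (fun j => y (Sum.inl j)) = 0 := by
      rw [Matrix.dotProduct_mulVec, ← Matrix.mulVec_transpose, hN, Matrix.neg_mulVec, h0,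
        neg_zero, zero_dotProduct]
    have h4 : x₀ ⬝ᵥ (fun i => N.mulVec (fun j => y (Sum.inl j)) i + s i * y (Sum.inr ())) = 0 := by
      simp only [hl]
      exact dotProduct_zero x₀
    have h5 : x₀ ⬝ᵥ (fun i => N.mulVec (fun j => y (Sum.inl j)) i + s i * y (Sum.inr ())) =
        x₀ ⬝ᵥ N.mulVec (fun j => y (Sum.inl j)) + (x₀ ⬝ᵥ s) * y (Sum.inr ()) := by
      simp only [dotProduct, mul_add, Finset.sum_add_distrib, Finset.sum_mul, mul_assoc]
    rw [h5, h3, zero_add] at h4
    rcases mul_eq_zero.1 h4 with h6 | h6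
    · exact absurd h6 h1
    · exact h6
  have hx : N.mulVec (fun j => y (Sum.inl j)) = 0 := by
    funext i
    have := hl i
    rw [ht, mul_zero, add_zero] at this
    exact this
  obtain ⟨c, hc⟩ := h2 _ hx
  have hc0 : c = 0 := by
    rw [hc, dotProduct_smul, smul_eq_mul] at hr
    rcases mul_eq_zero.1 hr with h6 | h6
    · exact h6
    · refine absurd ?_ h1
      rw [dotProduct_comm]
      exact h6
  apply hy0
  funext i
  rcases i with i | i
  · have := congrFun hc i
    rw [hc0, zero_smul] at this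
    exact this
  · exact ht

/-! ## The middle eigenvector -/

/-- the hypotheses on `Θ` -/
structure Mdl (ψ : Matrix (Fin n) (Fin n) K₀) (Θ : Matrix (Fin n) (Fin n) K) (r : K)
    (e : Fin n → K) : Prop where
  unit : ψ.det ≠ 0
  symm : ψ.transpose = ψ
  sim : Θ.transpose * ψ.map (algebraMap K₀ K) + ψ.map (algebraMap K₀ K) * Θ =
    (2 * r) • ψ.map (algebraMap K₀ K)
  e0 : e ≠ 0
  eig : Θ.mulVec e = r • e
  one : ∀ v, Θ.mulVec v = r • v → ∃ c : K, v = c • e
  two : ∀ v : Fin n → K, (Θ - r • (1 : Matrix (Fin n) (Fin n) K)).mulVec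
    ((Θ - r • (1 : Matrix (Fin n) (Fin n) K)).mulVec v) = 0 → Θ.mulVec v = r • v

section mdl

variable {ψ : Matrix (Fin n) (Fin n) K₀} {Θ : Matrix (Fin n) (Fin n) K} {r : K} {e : Fin n → K}

theorem th_mulVec (v : Fin n → K) :
    (Θ - r • (1 : Matrix (Fin n) (Fin n) K)).mulVec v = Θ.mulVec v - r • v := by
  rw [Matrix.sub_mulVec, Matrix.smul_mulVec, Matrix.one_mulVec]

theorem th_zero {v : Fin n → K} :
    (Θ - r • (1 : Matrix (Fin n) (Fin n) K)).mulVec v = 0 ↔ Θ.mulVec v = r • v := by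
  rw [th_mulVec, sub_eq_zero]

theorem Mdl.skew (h : Mdl ψ Θ r e) : (Θ - r • (1 : Matrix (Fin n) (Fin n) K)).transpose *
    ψ.map (algebraMap K₀ K) + ψ.map (algebraMap K₀ K) * (Θ - r • (1 : Matrix (Fin n) (Fin n) K)) =
      0 := by
  have h1 := h.sim
  rw [Matrix.transpose_sub, Matrix.transpose_smul, Matrix.transpose_one, Matrix.sub_mul,
    Matrix.mul_sub, Matrix.smul_mul, Matrix.mul_smul, Matrix.one_mul, Matrix.mul_one]
  rw [show Θ.transpose * ψ.map (algebraMap K₀ K) - r • ψ.map (algebraMap K₀ K) +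
    (ψ.map (algebraMap K₀ K) * Θ - r • ψ.map (algebraMap K₀ K)) =
    (Θ.transpose * ψ.map (algebraMap K₀ K) + ψ.map (algebraMap K₀ K) * Θ) -
      (2 * r) • ψ.map (algebraMap K₀ K) by
    rw [two_mul, add_smul]
    abel, h1, sub_self]

theorem Mdl.symK (h : Mdl ψ Θ r e) :
    (ψ.map (algebraMap K₀ K)).transpose = ψ.map (algebraMap K₀ K) := by
  rw [← Matrix.transpose_map, h.symm]

theorem Mdl.detK (h : Mdl ψ Θ r e) : (ψ.map (algebraMap K₀ K)).det ≠ 0 := by
  have : (ψ.map (algebraMap K₀ K)).det = algebraMap K₀ K ψ.det := by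
    rw [RingHom.map_det, RingHom.mapMatrix_apply]
  rw [this]
  exact fun h1 => h.unit ((map_eq_zero _).1 h1)

/-- the image of `Θ - r` is orthogonal to `e` -/
theorem Mdl.orth (h : Mdl ψ Θ r e) (v : Fin n → K) :
    e ⬝ᵥ (ψ.map (algebraMap K₀ K)).mulVec
      ((Θ - r • (1 : Matrix (Fin n) (Fin n) K)).mulVec v) = 0 := by
  have h1 : (ψ.map (algebraMap K₀ K)) * (Θ - r • (1 : Matrix (Fin n) (Fin n) K)) =
      -((Θ - r • (1 : Matrix (Fin n) (Fin n) K)).transpose * ψ.map (algebraMap K₀ K)) :=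
    eq_neg_of_add_eq_zero_right h.skew
  rw [Matrix.mulVec_mulVec, h1, Matrix.neg_mulVec, dotProduct_neg, ← Matrix.mulVec_mulVec,
    Matrix.dotProduct_mulVec, Matrix.vecMul_transpose, th_zero.2 h.eig, zero_dotProduct, neg_zero]

/-- `e` is not isotropic -/
theorem Mdl.ne (h : Mdl ψ Θ r e) : e ⬝ᵥ (ψ.map (algebraMap K₀ K)).mulVec e ≠ 0 := by
  intro h0
  -- the functional given by `e`
  let T : (Fin n → K) →ₗ[K] (Fin n → K) :=
    Matrix.toLin' (Θ - r • (1 : Matrix (Fin n) (Fin n) K))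
  let f : (Fin n → K) →ₗ[K] K :=
    (dotProductBilin K K e : (Fin n → K) →ₗ[K] K).comp
      (Matrix.toLin' (ψ.map (algebraMap K₀ K)))
  have hf : ∀ v, f v = e ⬝ᵥ (ψ.map (algebraMap K₀ K)).mulVec v := by
    intro v
    simp [f]
  have hf0 : f ≠ 0 := by
    intro hf1
    have h1 : (ψ.map (algebraMap K₀ K)).mulVec e = 0 := by
      funext i
      have h2 := hf (Pi.single i 1)
      rw [hf1, LinearMap.zero_apply, Matrix.dotProduct_mulVec, dotProduct_single, mul_one,
        ← Matrix.mulVec_transpose, h.symK] at h2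
      exact h2.symm
    exact h.e0 (Matrix.eq_zero_of_mulVec_eq_zero h.detK h1)
  have hle : LinearMap.range T ≤ LinearMap.ker f := by
    rintro _ ⟨v, rfl⟩
    rw [LinearMap.mem_ker, hf]
    exact h.orth v
  have hker : LinearMap.ker T = Submodule.span K {e} := by
    ext v
    rw [LinearMap.mem_ker, Submodule.mem_span_singleton]
    constructor
    · intro hv
      obtain ⟨c, hc⟩ := h.one v (th_zero.1 hv)
      exact ⟨c, hc.symm⟩
    · rintro ⟨c, rfl⟩
      rw [map_smul]
      have : T e = 0 := th_zero.2 h.eig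
      rw [this, smul_zero]
  have hd1 : Module.finrank K (LinearMap.ker T) = 1 := by
    rw [hker]
    exact finrank_span_singleton h.e0
  have hd2 := LinearMap.finrank_range_add_finrank_ker T
  have hd3 := LinearMap.finrank_range_add_finrank_ker f
  have hd4 : Module.finrank K (LinearMap.range f) = 1 := by
    rw [LinearMap.range_eq_top.2 (LinearMap.surjective hf0), finrank_top, Module.finrank_self]
  have heq : LinearMap.range T = LinearMap.ker f :=
    Submodule.eq_of_le_of_finrank_eq hle (by omega)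
  have he : e ∈ LinearMap.range T := by
    rw [heq, LinearMap.mem_ker, hf]
    exact h0
  obtain ⟨v, hv⟩ := he
  have hv1 : (Θ - r • (1 : Matrix (Fin n) (Fin n) K)).mulVec v = e := hv
  have h3 := h.two v (by rw [hv1]; exact th_zero.2 h.eig)
  rw [th_zero.2 h3] at hv1
  exact h.e0 hv1.symm

/-- **parity**: a stable non-degenerate subspace contains `e` if and only if its dimension is odd -/
theorem Mdl.odd_iff [CharZero K] (h : Mdl ψ Θ r e)
    {a : Submodule K₀ (Matrix (Fin n) (Fin n) K₀)} {W : Submodule K₀ (Fin n → K₀)}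
    (hW : St a W) (hΘ : Θ ∈ Submodule.span K {B | ∃ A ∈ a, B = A.map (algebraMap K₀ K)})
    {m : ℕ} {B : Matrix (Fin n) (Fin m) K₀} {C : Matrix (Fin m) (Fin n) K₀}
    (hCB : C * B = 1) (hB : Rg B W) (hS : (B.transpose * ψ * B).det ≠ 0) :
    e ∈ bc K W ↔ Odd m := by
  classical
  have hBK := map_CB (K := K) hCB
  have hst := stab_B hCB hB hW hΘ
  have hSK : ((B.map (algebraMap K₀ K)).transpose * ψ.map (algebraMap K₀ K) *
      B.map (algebraMap K₀ K)).det ≠ 0 := by
    rw [← Matrix.transpose_map, ← Matrix.map_mul, ← Matrix.map_mul]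
    have : ((B.transpose * ψ * B).map (algebraMap K₀ K)).det =
        algebraMap K₀ K (B.transpose * ψ * B).det := by
      rw [RingHom.map_det, RingHom.mapMatrix_apply]
    rw [this]
    exact fun h1 => hS ((map_eq_zero _).1 h1)
  -- the form `ψ (x, Θ' y)` on the subspace
  set BK := B.map (algebraMap K₀ K) with hBKd
  set CK := C.map (algebraMap K₀ K) with hCKd
  set ψK := ψ.map (algebraMap K₀ K) with hψKd
  set Θ' := Θ - r • (1 : Matrix (Fin n) (Fin n) K) with hΘ'
  have hst' : BK * (CK * (Θ' * BK)) = Θ' * BK := by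
    rw [hΘ', Matrix.sub_mul, Matrix.mul_sub, Matrix.mul_sub, hst, Matrix.smul_mul,
      Matrix.one_mul, Matrix.mul_smul, Matrix.mul_smul, hBK, Matrix.mul_one]
  have hskew : (BK.transpose * (ψK * (Θ' * BK))).transpose =
      -(BK.transpose * (ψK * (Θ' * BK))) := by
    have h1 : Θ'.transpose * ψK = -(ψK * Θ') := eq_neg_of_add_eq_zero_left h.skew
    rw [Matrix.transpose_mul, Matrix.transpose_mul, Matrix.transpose_mul,
      Matrix.transpose_transpose, h.symK, Matrix.mul_assoc, Matrix.mul_assoc,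
      ← Matrix.mul_assoc Θ'.transpose, h1, Matrix.neg_mul, Matrix.mul_neg, Matrix.mul_assoc]
  have hfac : BK.transpose * (ψK * (Θ' * BK)) =
      (BK.transpose * ψK * BK) * (CK * (Θ' * BK)) := by
    rw [Matrix.mul_assoc, Matrix.mul_assoc, hst']
  have hkey : ∀ x : Fin m → K, (BK.transpose * (ψK * (Θ' * BK))).mulVec x = 0 ↔
      Θ'.mulVec (BK.mulVec x) = 0 := by
    intro x
    constructor
    · intro hx
      rw [hfac, ← Matrix.mulVec_mulVec] at hx
      have h1 := Matrix.eq_zero_of_mulVec_eq_zero hSK hx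
      rw [Matrix.mulVec_mulVec, ← hst', ← Matrix.mulVec_mulVec, h1, Matrix.mulVec_zero]
    · intro hx
      rw [← Matrix.mulVec_mulVec, ← Matrix.mulVec_mulVec, ← Matrix.mulVec_mulVec, hx,
        Matrix.mulVec_zero, Matrix.mulVec_zero]
  rw [mem_bc_iff hCB hB]
  constructor
  · rintro ⟨x₀, hx₀⟩
    have hx₀' : BK.mulVec x₀ = e := hx₀
    refine odd_of_ker (S := BK.transpose * ψK * BK) hskew (x₀ := x₀) ?_ ?_ ?_
    · rw [hkey, hx₀']
      exact th_zero.2 h.eig
    · have h1 : x₀ ⬝ᵥ (BK.transpose * ψK * BK).mulVec x₀ = e ⬝ᵥ ψK.mulVec e := by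
        rw [← Matrix.mulVec_mulVec, hx₀', ← Matrix.mulVec_mulVec, Matrix.dotProduct_mulVec,
          Matrix.vecMul_transpose, hx₀']
      rw [h1]
      exact h.ne
    · intro x hx
      rw [hkey] at hx
      obtain ⟨c, hc⟩ := h.one _ (th_zero.1 hx)
      refine ⟨c, ?_⟩
      have h1 : BK.mulVec (x - c • x₀) = 0 := by
        rw [Matrix.mulVec_sub, Matrix.mulVec_smul, hc, hx₀', sub_self]
      exact sub_eq_zero.1 (inj_of_CB hBK h1)
  · intro hm
    have hd := det_skew hskew (by rw [Fintype.card_fin]; exact hm)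
    obtain ⟨x, hx0, hx⟩ := Matrix.exists_mulVec_eq_zero_iff.2 hd
    rw [hkey] at hx
    obtain ⟨c, hc⟩ := h.one _ (th_zero.1 hx)
    have hc0 : c ≠ 0 := by
      rintro rfl
      rw [zero_smul] at hc
      exact hx0 (inj_of_CB hBK hc)
    refine ⟨c⁻¹ • x, ?_⟩
    have h1 : BK.mulVec (c⁻¹ • x) = e := by
      rw [Matrix.mulVec_smul, hc, smul_smul, inv_mul_cancel₀ hc0, one_smul]
    exact h1

end mdl

/-! ## Simple subspaces -/

/-- simple subspaces -/
def Smpl (a : Submodule K₀ (Matrix (Fin n) (Fin n) K₀)) (W : Submodule K₀ (Fin n → K₀)) : Prop :=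
  St a W ∧ W ≠ ⊥ ∧ ∀ U, St a U → U ≤ W → U = ⊥ ∨ U = W

theorem exists_sim (a : Submodule K₀ (Matrix (Fin n) (Fin n) K₀)) (hn : n ≠ 0) :
    ∃ W, Smpl a W := by
  classical
  have h0 : ∃ d, ∃ W : Submodule K₀ (Fin n → K₀), St a W ∧ W ≠ ⊥ ∧ Module.finrank K₀ W = d := by
    refine ⟨_, ⊤, fun _ _ _ _ => Submodule.mem_top, ?_, rfl⟩
    have : Nonempty (Fin n) := ⟨⟨0, Nat.pos_of_ne_zero hn⟩⟩
    exact top_ne_bot
  obtain ⟨W, hW, hW0, hWd⟩ := Nat.find_spec h0
  refine ⟨W, hW, hW0, fun U hU hUW => ?_⟩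
  by_cases hU0 : U = ⊥
  · exact Or.inl hU0
  · refine Or.inr (Submodule.eq_of_le_of_finrank_le hUW ?_)
    rw [hWd]
    exact Nat.find_min' h0 ⟨U, hU, hU0, rfl⟩

/-- the translate of a subspace -/
def tr (g : Matrix.GeneralLinearGroup (Fin n) K₀) (W : Submodule K₀ (Fin n → K₀)) :
    Submodule K₀ (Fin n → K₀) :=
  W.map (Matrix.toLin' (g : Matrix (Fin n) (Fin n) K₀))

theorem mem_tr {g : Matrix.GeneralLinearGroup (Fin n) K₀} {W : Submodule K₀ (Fin n → K₀)}
    {v : Fin n → K₀} : v ∈ tr g W ↔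
      ((g⁻¹ : Matrix.GeneralLinearGroup (Fin n) K₀) : Matrix (Fin n) (Fin n) K₀).mulVec v ∈ W := by
  constructor
  · rintro ⟨w, hw, rfl⟩
    rw [Matrix.toLin'_apply, Matrix.mulVec_mulVec, ← Units.val_mul, inv_mul_cancel, Units.val_one,
      Matrix.one_mulVec]
    exact hw
  · intro h
    refine ⟨_, h, ?_⟩
    rw [Matrix.toLin'_apply, Matrix.mulVec_mulVec, ← Units.val_mul, mul_inv_cancel, Units.val_one,
      Matrix.one_mulVec]

theorem mulVec_mem_tr {g : Matrix.GeneralLinearGroup (Fin n) K₀}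
    {W : Submodule K₀ (Fin n → K₀)} {v : Fin n → K₀} (hv : v ∈ W) :
    (g : Matrix (Fin n) (Fin n) K₀).mulVec v ∈ tr g W := ⟨v, hv, by rw [Matrix.toLin'_apply]⟩

section tr

variable {a : Submodule K₀ (Matrix (Fin n) (Fin n) K₀)}
  {G : Subgroup (Matrix.GeneralLinearGroup (Fin n) K₀)}

theorem st_tr (hG : ∀ g ∈ G, ∀ A ∈ a, (g : Matrix (Fin n) (Fin n) K₀) * A *
      ((g⁻¹ : Matrix.GeneralLinearGroup (Fin n) K₀) : Matrix (Fin n) (Fin n) K₀) ∈ a)
    {W : Submodule K₀ (Fin n → K₀)} (hW : St a W) {g : Matrix.GeneralLinearGroup (Fin n) K₀}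
    (hg : g ∈ G) : St a (tr g W) := by
  intro A hA v hv
  rw [mem_tr] at hv ⊢
  have h1 := hG g⁻¹ (G.inv_mem hg) A hA
  have h2 := hW _ h1 _ hv
  rw [inv_inv] at h2
  rwa [Matrix.mulVec_mulVec, Matrix.mul_assoc, Matrix.mul_assoc, ← Units.val_mul, mul_inv_cancel,
    Units.val_one, Matrix.mul_one, ← Matrix.mulVec_mulVec] at h2

theorem sim_tr (hG : ∀ g ∈ G, ∀ A ∈ a, (g : Matrix (Fin n) (Fin n) K₀) * A *
      ((g⁻¹ : Matrix.GeneralLinearGroup (Fin n) K₀) : Matrix (Fin n) (Fin n) K₀) ∈ a)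
    {W : Submodule K₀ (Fin n → K₀)} (hW : Smpl a W) {g : Matrix.GeneralLinearGroup (Fin n) K₀}
    (hg : g ∈ G) : Smpl a (tr g W) := by
  obtain ⟨hW1, hW2, hW3⟩ := hW
  have hinv : ∀ U : Submodule K₀ (Fin n → K₀), ∀ v, v ∈ tr g⁻¹ U ↔
      (g : Matrix (Fin n) (Fin n) K₀).mulVec v ∈ U := by
    intro U v
    rw [mem_tr, inv_inv]
  refine ⟨st_tr hG hW1 hg, fun h => hW2 ?_, fun U hU hUW => ?_⟩
  · rw [Submodule.eq_bot_iff]
    intro v hv
    have h1 : (g : Matrix (Fin n) (Fin n) K₀).mulVec v ∈ tr g W := mulVec_mem_tr hv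
    rw [h, Submodule.mem_bot] at h1
    have h2 := congrArg
      ((g⁻¹ : Matrix.GeneralLinearGroup (Fin n) K₀) : Matrix (Fin n) (Fin n) K₀).mulVec h1
    rwa [Matrix.mulVec_mulVec, ← Units.val_mul, inv_mul_cancel, Units.val_one,
      Matrix.one_mulVec, Matrix.mulVec_zero] at h2
  · have h1 := hW3 (tr g⁻¹ U) (st_tr hG hU (G.inv_mem hg)) (by
      intro v hv
      rw [hinv] at hv
      have h2 := mem_tr.1 (hUW hv)
      rwa [Matrix.mulVec_mulVec, ← Units.val_mul, inv_mul_cancel, Units.val_one,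
        Matrix.one_mulVec] at h2)
    rcases h1 with h1 | h1
    · left
      rw [Submodule.eq_bot_iff]
      intro v hv
      have h2 : ((g⁻¹ : Matrix.GeneralLinearGroup (Fin n) K₀) :
          Matrix (Fin n) (Fin n) K₀).mulVec v ∈ tr g⁻¹ U := mulVec_mem_tr hv
      rw [h1, Submodule.mem_bot] at h2
      have h3 := congrArg (g : Matrix (Fin n) (Fin n) K₀).mulVec h2
      rwa [Matrix.mulVec_mulVec, ← Units.val_mul, mul_inv_cancel, Units.val_one,
        Matrix.one_mulVec, Matrix.mulVec_zero] at h3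
    · right
      refine le_antisymm hUW fun v hv => ?_
      rw [mem_tr, ← h1, hinv, Matrix.mulVec_mulVec, ← Units.val_mul, mul_inv_cancel,
        Units.val_one, Matrix.one_mulVec] at hv
      exact hv

end tr

end O1

open O1 in
/-- OI1 -/
theorem st_OI1 : ST_OI1 := by
  intro K₀ K _ _ _ _ n ψ G a Θ r e hdet hsym hsim hGs hGn hGi hΘ hΘs he0 hee hone htwo
  have : CharZero K := charZero_of_injective_algebraMap (algebraMap K₀ K).injective
  have h : Mdl ψ Θ r e := ⟨hdet, hsym, hΘs, he0, hee, hone, htwo⟩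
  have hn : n ≠ 0 := by
    rintro rfl
    exact he0 (Subsingleton.elim _ _)
  have : Nonempty (Fin n) := ⟨⟨0, Nat.pos_of_ne_zero hn⟩⟩
  obtain ⟨W₁, hW₁⟩ := exists_sim a hn
  -- some translate contains `e`
  obtain ⟨g₁, hg₁, heW⟩ : ∃ g ∈ G, e ∈ bc K (tr g W₁) := by
    by_contra hcon0
    have hcon : ∀ g ∈ G, e ∉ bc K (tr g W₁) := fun g hg h1 => hcon0 ⟨g, hg, h1⟩
    let T : (Fin n → K) →ₗ[K] (Fin n → K) :=
      Matrix.toLin' (Θ - r • (1 : Matrix (Fin n) (Fin n) K))
    have hT : ∀ v, T v = (Θ - r • (1 : Matrix (Fin n) (Fin n) K)).mulVec v := fun v =>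
      Matrix.toLin'_apply _ _
    have hsub : ∀ g ∈ G, bc K (tr g W₁) ≤ LinearMap.range T := by
      intro g hg
      have hst : ∀ v ∈ bc K (tr g W₁), T v ∈ bc K (tr g W₁) := by
        intro v hv
        rw [hT, th_mulVec]
        exact Submodule.sub_mem _ (bc_span (st_tr hGn hW₁.1 hg) hΘ hv)
          (Submodule.smul_mem _ _ hv)
      have hinj : Function.Injective (T.restrict hst) := by
        rw [← LinearMap.ker_eq_bot, LinearMap.ker_eq_bot']
        intro v hv
        have h1 : T v = 0 := congrArg Subtype.val hv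
        obtain ⟨c, hc⟩ := hone _ (th_zero.1 ((hT _).symm.trans h1))
        by_cases hc0 : c = 0
        · rw [hc0, zero_smul] at hc
          exact Subtype.ext hc
        · exfalso
          refine hcon g hg ?_
          have h2 : e = c⁻¹ • (v : Fin n → K) := by
            rw [hc, smul_smul, inv_mul_cancel₀ hc0, one_smul]
          rw [h2]
          exact Submodule.smul_mem _ _ v.2
      have hsurj := LinearMap.injective_iff_surjective.1 hinj
      intro v hv
      obtain ⟨w, hw⟩ := hsurj ⟨v, hv⟩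
      exact ⟨w, congrArg Subtype.val hw⟩
    -- the span of the translates
    let Sg : Submodule K₀ (Fin n → K₀) :=
      Submodule.span K₀ {v | ∃ g ∈ G, v ∈ tr g W₁}
    have hSg' : Sg = ⊤ := by
      rcases hGi Sg (by
        intro g hg v hv
        induction hv using Submodule.span_induction with
        | mem x hx =>
          obtain ⟨g', hg', hx'⟩ := hx
          refine Submodule.subset_span ⟨g * g', G.mul_mem hg hg', ?_⟩
          rw [mem_tr] at hx' ⊢
          rw [mul_inv_rev, Units.val_mul, Matrix.mulVec_mulVec, Matrix.mul_assoc,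
            ← Units.val_mul g⁻¹, inv_mul_cancel, Units.val_one, Matrix.mul_one]
          exact hx'
        | zero =>
          rw [Matrix.mulVec_zero]
          exact Submodule.zero_mem _
        | add x y _ _ hx hy =>
          rw [Matrix.mulVec_add]
          exact Submodule.add_mem _ hx hy
        | smul c x _ hx =>
          rw [Matrix.mulVec_smul]
          exact Submodule.smul_mem _ c hx) with h1 | h1
      · exfalso
        refine hW₁.2.1 ?_
        rw [Submodule.eq_bot_iff]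
        intro v hv
        have h2 : v ∈ Sg := Submodule.subset_span ⟨1, G.one_mem, by
          rw [mem_tr, inv_one, Units.val_one, Matrix.one_mulVec]
          exact hv⟩
        rw [h1, Submodule.mem_bot] at h2
        exact h2
      · exact h1
    have hall : ∀ v : Fin n → K₀, (fun j => algebraMap K₀ K (v j)) ∈ LinearMap.range T := by
      intro v
      have hv : v ∈ Sg := by
        rw [hSg']
        exact Submodule.mem_top
      induction hv using Submodule.span_induction with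
      | mem x hx =>
        obtain ⟨g', hg', hx'⟩ := hx
        exact hsub g' hg' (mem_bc_map hx')
      | zero =>
        have h1 : (fun j => algebraMap K₀ K ((0 : Fin n → K₀) j)) = 0 := by
          funext j
          simp
        rw [h1]
        exact Submodule.zero_mem _
      | add x y _ _ hx hy =>
        have h1 : (fun j => algebraMap K₀ K ((x + y) j)) =
            (fun j => algebraMap K₀ K (x j)) + (fun j => algebraMap K₀ K (y j)) := by
          funext j
          simp
        rw [h1]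
        exact Submodule.add_mem _ hx hy
      | smul c x _ hx =>
        have h1 : (fun j => algebraMap K₀ K ((c • x) j)) =
            (algebraMap K₀ K c) • (fun j => algebraMap K₀ K (x j)) := by
          funext j
          simp
        rw [h1]
        exact Submodule.smul_mem _ _ hx
    have htop : LinearMap.range T = ⊤ := by
      rw [Submodule.eq_top_iff']
      intro v
      have h1 : v = ∑ j, v j • (fun i => algebraMap K₀ K ((Pi.single j (1 : K₀) : Fin n → K₀) i)) := by
        funext i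
        rw [Finset.sum_apply, Finset.sum_eq_single i]
        · simp
        · intro j _ hj
          simp [Pi.single_apply, Ne.symm hj]
        · intro hi
          exact absurd (Finset.mem_univ i) hi
      rw [h1]
      exact Submodule.sum_mem _ fun j _ => Submodule.smul_mem _ _ (hall _)
    have hinj := LinearMap.injective_iff_surjective.2 (LinearMap.range_eq_top.1 htop)
    have h0 : T e = 0 := by
      rw [hT]
      exact th_zero.2 hee
    exact he0 (hinj (h0.trans (map_zero T).symm))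
  set W := tr g₁ W₁ with hWdef
  have hW : Smpl a W := sim_tr hGn hW₁ hg₁
  obtain ⟨m, B, C, hCB, hB⟩ := exists_basis W
  -- the form is non-degenerate on `W`
  have hS : (B.transpose * ψ * B).det ≠ 0 := by
    intro hd
    obtain ⟨x, hx0, hx⟩ := Matrix.exists_mulVec_eq_zero_iff.2 hd
    let U : Submodule K₀ (Fin n → K₀) :=
      { carrier := {v | v ∈ W ∧ (B.transpose * ψ).mulVec v = 0}
        add_mem' := by
          rintro u v ⟨hu, hu'⟩ ⟨hv, hv'⟩
          refine ⟨W.add_mem hu hv, ?_⟩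
          rw [Matrix.mulVec_add, hu', hv', add_zero]
        zero_mem' := ⟨W.zero_mem, Matrix.mulVec_zero _⟩
        smul_mem' := by
          rintro c v ⟨hv, hv'⟩
          refine ⟨W.smul_mem c hv, ?_⟩
          rw [Matrix.mulVec_smul, hv', smul_zero] }
    have hU : St a U := by
      rintro A hA v ⟨hv, hv'⟩
      refine ⟨hW.1 A hA v hv, ?_⟩
      obtain ⟨c, hc⟩ := hsim A hA
      have h1 : ψ * A = c • ψ - A.transpose * ψ := eq_sub_of_add_eq' hc
      have h2 : A * B = B * (C * (A * B)) := by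
        refine Matrix.toLin'.injective (LinearMap.ext fun y => ?_)
        have h3 := rg_proj hCB hB (hW.1 A hA _ ((hB _).2 ⟨y, rfl⟩))
        simp only [Matrix.toLin'_apply, Matrix.mulVec_mulVec, Matrix.mul_assoc] at h3 ⊢
        exact h3.symm
      rw [Matrix.mulVec_mulVec, Matrix.mul_assoc, h1, Matrix.mul_sub, Matrix.mul_smul,
        ← Matrix.mul_assoc, ← Matrix.transpose_mul, h2, Matrix.transpose_mul, Matrix.sub_mulVec,
        Matrix.smul_mulVec, hv', smul_zero, Matrix.mul_assoc, ← Matrix.mulVec_mulVec, hv',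
        Matrix.mulVec_zero, sub_zero]
    rcases hW.2.2 U hU (fun v hv => hv.1) with h1 | h1
    · have h2 : B.mulVec x ∈ U := by
        refine ⟨(hB _).2 ⟨x, rfl⟩, ?_⟩
        rw [Matrix.mulVec_mulVec]
        exact hx
      rw [h1, Submodule.mem_bot] at h2
      exact hx0 (inj_of_CB hCB h2)
    · have h2 : B.transpose * ψ * B = 0 := by
        refine Matrix.toLin'.injective (LinearMap.ext fun y => ?_)
        have h3 : B.mulVec y ∈ U := by
          rw [h1]
          exact (hB _).2 ⟨y, rfl⟩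
        rw [Matrix.toLin'_apply, ← Matrix.mulVec_mulVec, h3.2, map_zero, LinearMap.zero_apply]
      obtain ⟨x₀, hx₀⟩ := (mem_bc_iff hCB hB).1 heW
      refine h.ne ?_
      have h4 : (B.map (algebraMap K₀ K)).transpose * (ψ.map (algebraMap K₀ K) *
          B.map (algebraMap K₀ K)) = 0 := by
        rw [← Matrix.transpose_map, ← Matrix.map_mul, ← Matrix.map_mul,
          ← Matrix.mul_assoc, h2]
        ext i j
        simp
      have h5 : (B.map (algebraMap K₀ K)).mulVec x₀ ⬝ᵥ (ψ.map (algebraMap K₀ K)).mulVec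
          ((B.map (algebraMap K₀ K)).mulVec x₀) = x₀ ⬝ᵥ
          ((B.map (algebraMap K₀ K)).transpose * (ψ.map (algebraMap K₀ K) *
            B.map (algebraMap K₀ K))).mulVec x₀ := by
        rw [← Matrix.mulVec_mulVec, ← Matrix.mulVec_mulVec, Matrix.dotProduct_mulVec x₀,
          Matrix.vecMul_transpose]
      rw [← hx₀, h5, h4, Matrix.zero_mulVec, dotProduct_zero]
  have hm : Odd m := (h.odd_iff hW.1 hΘ hCB hB hS).1 heW
  -- every translate contains `e`
  have hall : ∀ g ∈ G, W ≤ tr g W := by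
    intro g hg
    have hCBg : (C * ((g⁻¹ : Matrix.GeneralLinearGroup (Fin n) K₀) :
        Matrix (Fin n) (Fin n) K₀)) * ((g : Matrix (Fin n) (Fin n) K₀) * B) = 1 := by
      rw [Matrix.mul_assoc, ← Matrix.mul_assoc _ (g : Matrix (Fin n) (Fin n) K₀) B,
        ← Units.val_mul, inv_mul_cancel, Units.val_one, Matrix.one_mul, hCB]
    have hBg : Rg ((g : Matrix (Fin n) (Fin n) K₀) * B) (tr g W) := by
      intro v
      constructor
      · rintro ⟨w, hw, rfl⟩
        obtain ⟨x, rfl⟩ := (hB w).1 hw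
        exact ⟨x, by rw [Matrix.toLin'_apply, Matrix.mulVec_mulVec]⟩
      · rintro ⟨x, rfl⟩
        rw [← Matrix.mulVec_mulVec]
        exact mulVec_mem_tr ((hB _).2 ⟨x, rfl⟩)
    obtain ⟨c, hc⟩ := hGs g hg
    have hc0 : c ≠ 0 := by
      rintro rfl
      rw [zero_smul] at hc
      have h1 := congrArg Matrix.det hc
      rw [Matrix.det_mul, Matrix.det_mul, Matrix.det_transpose, Matrix.det_zero] at h1
      have h2 : (g : Matrix (Fin n) (Fin n) K₀).det ≠ 0 := by
        have h3 := (Matrix.isUnit_iff_isUnit_det _).1 g.isUnit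
        exact h3.ne_zero
      exact mul_ne_zero (mul_ne_zero h2 hdet) h2 h1
    have hSg : (((g : Matrix (Fin n) (Fin n) K₀) * B).transpose * ψ *
        ((g : Matrix (Fin n) (Fin n) K₀) * B)).det ≠ 0 := by
      have h1 : ((g : Matrix (Fin n) (Fin n) K₀) * B).transpose * ψ *
          ((g : Matrix (Fin n) (Fin n) K₀) * B) = c • (B.transpose * ψ * B) := by
        rw [Matrix.transpose_mul]
        calc B.transpose * (g : Matrix (Fin n) (Fin n) K₀).transpose * ψ *
              ((g : Matrix (Fin n) (Fin n) K₀) * B) =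
            B.transpose * ((g : Matrix (Fin n) (Fin n) K₀).transpose * ψ *
              (g : Matrix (Fin n) (Fin n) K₀)) * B := by
              simp only [Matrix.mul_assoc]
          _ = c • (B.transpose * ψ * B) := by
              rw [hc, Matrix.mul_smul, Matrix.smul_mul]
      rw [h1, Matrix.det_smul]
      exact mul_ne_zero (pow_ne_zero _ hc0) hS
    have heg : e ∈ bc K (tr g W) :=
      (h.odd_iff (st_tr hGn hW.1 hg) hΘ hCBg hBg hSg).2 hm
    have hst : St a (W ⊓ tr g W) := fun A hA v hv =>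
      ⟨hW.1 A hA v hv.1, st_tr hGn hW.1 hg A hA v hv.2⟩
    rcases hW.2.2 _ hst inf_le_left with h1 | h1
    · exfalso
      have h2 := bc_inf heW heg
      rw [h1] at h2
      exact he0 (bc_bot h2)
    · exact inf_eq_left.1 h1
  have hWtop : W = ⊤ := by
    rcases hGi W (by
      intro g hg v hv
      have h1 := hall g⁻¹ (G.inv_mem hg) hv
      rwa [mem_tr, inv_inv] at h1) with h1 | h1
    · exact absurd h1 hW.2.1
    · exact h1
  intro U hU
  rcases hW.2.2 U hU (by rw [hWtop]; exact le_top) with h1 | h1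
  · exact Or.inl h1
  · exact Or.inr (h1.trans hWtop)

end MT
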